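import Pool.Agent.BVM.Final

/-!
# MP_0dd0cc_lc, Q1: it is consistent with ZFC that `λ*` exists and `λ* > ℵ₂`

There is a model `(M, E)` of ZFC, with `ω`, `ω₁`, `ω₂`, `ω₃` of the model being `w`, `w1`, `w2`,
`w3`, in which there is a bad family of at most `ℵ₃` ladder system colourings, and in which no
family of at most `ℵ₂` ladder system colourings is bad.  So `λ* = ℵ₃` holds in `(M, E)`.

The notions are defined in `Pool.Agent.BVM.Fml` (formulas and the axioms of ZFC) and
`Pool.Agent.BVM.Notions` (all others).

The model is the quotient by an ultrafilter of the Boolean-valued universe over the regular open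
algebra of a c.c.c. poset of finite conditions.  The poset adds, for each `i < ω₃`, an Aronszajn
tree `T_i` together with full `T_i`-uniformizations of all colourings whose names only mention
coordinates below `i`, and a colouring `f_i` of a fixed ladder system (which is generic over the
part below `i`).  A family of `ℵ₂` colourings only mentions coordinates below some `i < ω₃`, so
`T_i` works for it; and for each Aronszajn tree `T` of the extension, `T` only mentions
coordinates below some `i`, and `f_i` has no full `T`-uniformization.
-/

namespace Pool.Agent.Results.MP_0dd0cc_lc.LambdaStarAlephThree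

open Pool.Agent.BVM

theorem result : ∃ (M : Type 1) (E : M → M → Prop), ZFC E ∧
    ∃ w w1 w2 w3 : M, Omega E w ∧ SuccCard E w1 w ∧ SuccCard E w2 w1 ∧ SuccCard E w3 w2 ∧
      (∃ F, CardLE E F w3 ∧ Bad E w w1 F) ∧ ∀ F, CardLE E F w2 → ¬ Bad E w w1 F :=
  exists_model

end Pool.Agent.Results.MP_0dd0cc_lc.LambdaStarAlephThree
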